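import Mathlib

set_option maxHeartbeats 4000000

namespace Pool.Agent.Results.MP_eb164e_co.TwoThirds

/-- signed double Roman dominating function -/
def IsSDRDF {V : Type} [Fintype V] (G : SimpleGraph V) (f : V → ℤ) : Prop :=
  (∀ v, f v = -1 ∨ f v = 1 ∨ f v = 2 ∨ f v = 3) ∧
  (∀ u, f u = -1 → (∃ v, G.Adj u v ∧ f v = 3) ∨
    ∃ v w, v ≠ w ∧ G.Adj u v ∧ G.Adj u w ∧ f v = 2 ∧ f w = 2) ∧
  (∀ u, f u = 1 → ∃ v, G.Adj u v ∧ (f v = 2 ∨ f v = 3)) ∧
  (∀ u, 1 ≤ f u + ∑ᶠ v ∈ G.neighborSet u, f v)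

/-- coded local condition: the values are `f + 1`, one of `0, 2, 3, 4` -/
def ok (c p q r : ℕ) : Bool :=
  Nat.ble 5 (c+p+q+r) &&
  (!(c == 0) || (p == 4 || q == 4 || r == 4) || (p==3 && q==3) || (p==3 && r==3) ||
    (q==3 && r==3)) &&
  (!(c == 2) || (Nat.ble 3 p || Nat.ble 3 q || Nat.ble 3 r))

def vals : List ℕ := [0,2,3,4]

def T (y b : ℕ) : ℕ :=
  if y == 0 then (if b == 0 then 12 else if b == 4 then 14 else 13)
  else if y == 2 then (if b == 2 then 13 else 12)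
  else (if b == 0 then 11 else 12)

theorem block : ∀ y ∈ vals, ∀ b2 ∈ vals, ∀ b4 ∈ vals, ∀ b7 ∈ vals, ok b2 y b4 b7 = true →
    ∀ b3 ∈ vals, ∀ b6 ∈ vals, ok b4 b2 b3 b6 = true → ∀ b1 ∈ vals, ∀ b5 ∈ vals,
    ok b7 b1 b2 b5 = true → ok b3 b1 b5 b4 = true → ok b6 b1 b4 b5 = true →
    ok b1 b3 b6 b7 = true → ok b5 b3 b6 b7 = true →
    T y b2 ≤ b1+b2+b3+b4+b5+b6+b7 := by decide +kernel

def phi (x y : ℕ) : ℕ :=
  if x == 0 then (if y == 0 then 5 else if y == 4 then 0 else 2)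
  else if x == 2 then 4
  else if x == 3 then (if y == 0 then 6 else 4)
  else (if y == 0 then 6 else 5)

theorem ringc : ∀ x ∈ vals, ∀ y ∈ vals, ∀ z ∈ vals, ∀ b ∈ vals, ok y x z b = true →
    40 + phi y z ≤ 3 * (y + T y b) + phi x y := by decide +kernel

theorem loc (a b c d : ℤ) (ha : a = -1 ∨ a = 1 ∨ a = 2 ∨ a = 3)
    (hb : b = -1 ∨ b = 1 ∨ b = 2 ∨ b = 3) (hc : c = -1 ∨ c = 1 ∨ c = 2 ∨ c = 3)
    (hd : d = -1 ∨ d = 1 ∨ d = 2 ∨ d = 3)
    (h1 : a = -1 → (b = 3 ∨ c = 3 ∨ d = 3) ∨ (b = 2 ∧ c = 2) ∨ (b = 2 ∧ d = 2) ∨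
      (c = 2 ∧ d = 2))
    (h2 : a = 1 → (b = 2 ∨ b = 3) ∨ (c = 2 ∨ c = 3) ∨ (d = 2 ∨ d = 3))
    (h3 : 1 ≤ a + (b + c + d)) :
    ok (a+1).toNat (b+1).toNat (c+1).toNat (d+1).toNat = true := by
  rcases ha with rfl | rfl | rfl | rfl <;> rcases hb with rfl | rfl | rfl | rfl <;>
  rcases hc with rfl | rfl | rfl | rfl <;> rcases hd with rfl | rfl | rfl | rfl <;>
  first
  | rfl
  | (exfalso; revert h1 h2 h3; decide)

def adjB (a b : Fin 8) : Bool :=
  [(0,2),(1,3),(1,6),(1,7),(2,4),(2,7),(3,5),(3,4),(4,6),(5,6),(5,7)].contains (a.val,b.val) ||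
  [(0,2),(1,3),(1,6),(1,7),(2,4),(2,7),(3,5),(3,4),(4,6),(5,6),(5,7)].contains (b.val,a.val)

theorem adjB_symm : ∀ a b : Fin 8, adjB a b = adjB b a := by decide
theorem adjB_irr : ∀ a : Fin 8, adjB a a = false := by decide

/-- the ring of `k` vertices `(i,0)`, a pendant subdivided `K_{3,3}` at each of them -/
def GR (k : ℕ) : SimpleGraph (ZMod k × Fin 8) where
  Adj u v := (u.1 = v.1 ∧ adjB u.2 v.2 = true) ∨
    (u.1 ≠ v.1 ∧ u.2 = 0 ∧ v.2 = 0 ∧ (v.1 = u.1 + 1 ∨ u.1 = v.1 + 1))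
  symm := ⟨by
    rintro u v (⟨h1, h2⟩ | ⟨h0, h1, h2, h3⟩)
    · exact Or.inl ⟨h1.symm, by rw [adjB_symm]; exact h2⟩
    · exact Or.inr ⟨h0.symm, h2, h1, h3.symm⟩⟩
  loopless := ⟨by
    rintro u (⟨h1, h2⟩ | ⟨h0, h1⟩)
    · rw [adjB_irr] at h2; exact absurd h2 (by decide)
    · exact h0 rfl⟩

theorem one_ne (k : ℕ) (hk : 3 ≤ k) : (1 : ZMod k) ≠ 0 := by
  have : Fact (1 < k) := ⟨by omega⟩
  exact one_ne_zero

theorem two_ne (k : ℕ) (hk : 3 ≤ k) : (2 : ZMod k) ≠ 0 := by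
  intro h
  have h2 : ((2 : ℕ) : ZMod k) = 0 := by exact_mod_cast h
  rw [ZMod.natCast_eq_zero_iff] at h2
  have := Nat.le_of_dvd (by norm_num) h2
  omega

/-- the neighbours inside a block -/
def nb (a : Fin 8) : Fin 8 × Fin 8 × Fin 8 :=
  match a with
  | 0 => (2, 2, 2)
  | 1 => (3, 6, 7)
  | 2 => (0, 4, 7)
  | 3 => (1, 5, 4)
  | 4 => (2, 3, 6)
  | 5 => (3, 6, 7)
  | 6 => (1, 4, 5)
  | 7 => (1, 2, 5)

theorem nb_spec : ∀ a b : Fin 8, adjB a b = true ↔ (b = (nb a).1 ∨ b = (nb a).2.1 ∨ b = (nb a).2.2) := by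
  decide

theorem nb_ne : ∀ a : Fin 8, a ≠ 0 → (nb a).1 ≠ (nb a).2.1 ∧ (nb a).1 ≠ (nb a).2.2 ∧
    (nb a).2.1 ≠ (nb a).2.2 := by
  decide

theorem nbset_pos (k : ℕ) (i : ZMod k) (a : Fin 8) (ha : a ≠ 0) :
    (GR k).neighborSet (i, a) = {(i, (nb a).1), (i, (nb a).2.1), (i, (nb a).2.2)} := by
  ext ⟨j, b⟩
  simp only [SimpleGraph.mem_neighborSet, GR, Set.mem_insert_iff, Set.mem_singleton_iff,
    Prod.mk.injEq]
  rw [nb_spec]
  constructor
  · rintro (⟨h1, h2⟩ | ⟨_, h1, _⟩)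
    · rcases h2 with h | h | h
      · exact Or.inl ⟨h1.symm, h⟩
      · exact Or.inr (Or.inl ⟨h1.symm, h⟩)
      · exact Or.inr (Or.inr ⟨h1.symm, h⟩)
    · exact absurd h1 ha
  · rintro (⟨h1, h2⟩ | ⟨h1, h2⟩ | ⟨h1, h2⟩)
    · exact Or.inl ⟨h1.symm, Or.inl h2⟩
    · exact Or.inl ⟨h1.symm, Or.inr (Or.inl h2)⟩
    · exact Or.inl ⟨h1.symm, Or.inr (Or.inr h2)⟩

theorem nbset_zero (k : ℕ) (hk : 3 ≤ k) (i : ZMod k) :
    (GR k).neighborSet (i, 0) = {(i - 1, 0), (i + 1, 0), (i, 2)} := by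
  ext ⟨j, b⟩
  simp only [SimpleGraph.mem_neighborSet, GR, Set.mem_insert_iff, Set.mem_singleton_iff,
    Prod.mk.injEq]
  rw [nb_spec]
  have h1 := one_ne k hk
  constructor
  · rintro (⟨h1, h2⟩ | ⟨_, _, h2, h3⟩)
    · refine Or.inr (Or.inr ⟨h1.symm, ?_⟩)
      simpa [nb] using h2
    · rcases h3 with h3 | h3
      · exact Or.inr (Or.inl ⟨h3, h2⟩)
      · exact Or.inl ⟨by rw [h3]; ring, h2⟩
  · rintro (⟨h2, h3⟩ | ⟨h2, h3⟩ | ⟨h2, h3⟩)
    · refine Or.inr ⟨?_, trivial, h3, Or.inr (by rw [h2]; ring)⟩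
      intro h
      apply h1
      rw [h2] at h
      linear_combination h
    · refine Or.inr ⟨?_, trivial, h3, Or.inl h2⟩
      intro h
      apply h1
      rw [h2] at h
      linear_combination -h
    · refine Or.inl ⟨h2.symm, Or.inl ?_⟩
      rw [h3]; rfl

theorem locV {V : Type} [Fintype V] (G : SimpleGraph V) (f : V → ℤ) (hf : IsSDRDF G f)
    (u p q r : V) (hN : G.neighborSet u = {p, q, r}) (h1 : p ≠ q) (h2 : p ≠ r) (h3 : q ≠ r) :
    ok (f u + 1).toNat (f p + 1).toNat (f q + 1).toNat (f r + 1).toNat = true := by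
  obtain ⟨hv, ha, hb, hc⟩ := hf
  have hm : ∀ v, G.Adj u v → v = p ∨ v = q ∨ v = r := by
    intro v hv
    have : v ∈ G.neighborSet u := hv
    rw [hN] at this
    simpa using this
  apply loc _ _ _ _ (hv u) (hv p) (hv q) (hv r)
  · intro h
    rcases ha u h with ⟨v, h4, h5⟩ | ⟨v, w, h4, h5, h6, h7, h8⟩
    · rcases hm v h4 with rfl | rfl | rfl
      · exact Or.inl (Or.inl h5)
      · exact Or.inl (Or.inr (Or.inl h5))
      · exact Or.inl (Or.inr (Or.inr h5))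
    · rcases hm v h5 with rfl | rfl | rfl <;> rcases hm w h6 with rfl | rfl | rfl <;>
      first
      | exact absurd rfl h4
      | (right; tauto)
  · intro h
    obtain ⟨v, h4, h5⟩ := hb u h
    rcases hm v h4 with rfl | rfl | rfl
    · exact Or.inl h5
    · exact Or.inr (Or.inl h5)
    · exact Or.inr (Or.inr h5)
  · have h4 := hc u
    rw [hN] at h4
    have h5 : ∑ᶠ v ∈ ({p, q, r} : Set V), f v = f p + f q + f r := by
      classical
      have : ({p, q, r} : Set V) = ↑({p, q, r} : Finset V) := by simp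
      rw [this, finsum_mem_coe_finset, Finset.sum_insert (by simp [h1, h2]),
        Finset.sum_insert (by simp [h3]), Finset.sum_singleton]
      ring
    rw [h5] at h4
    exact h4

theorem conn (k : ℕ) (hk : 3 ≤ k) : (GR k).Connected := by
  have : NeZero k := ⟨by omega⟩
  have hb : ∀ (i : ZMod k) (a b : Fin 8), adjB a b = true → (GR k).Reachable (i, a) (i, b) := by
    intro i a b h
    exact SimpleGraph.Adj.reachable (Or.inl ⟨rfl, h⟩)
  have h0 : ∀ (i : ZMod k) (a : Fin 8), (GR k).Reachable (i, 0) (i, a) := by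
    intro i a
    have e2 := hb i 0 2 (by decide)
    have e4 := e2.trans (hb i 2 4 (by decide))
    have e7 := e2.trans (hb i 2 7 (by decide))
    have e3 := e4.trans (hb i 4 3 (by decide))
    have e6 := e4.trans (hb i 4 6 (by decide))
    have e1 := e7.trans (hb i 7 1 (by decide))
    have e5 := e7.trans (hb i 7 5 (by decide))
    fin_cases a
    · exact SimpleGraph.Reachable.refl _
    · exact e1
    · exact e2
    · exact e3
    · exact e4
    · exact e5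
    · exact e6
    · exact e7
  have hr : ∀ n : ℕ, (GR k).Reachable ((0 : ZMod k), (0 : Fin 8)) ((n : ZMod k), 0) := by
    intro n
    induction n with
    | zero => simp
    | succ n ih =>
      refine ih.trans ?_
      refine SimpleGraph.Adj.reachable (Or.inr ⟨?_, rfl, rfl, Or.inl (by push_cast; rfl)⟩)
      intro h
      apply one_ne k hk
      push_cast at h
      linear_combination -h
  have hall : ∀ v : ZMod k × Fin 8, (GR k).Reachable ((0 : ZMod k), (0 : Fin 8)) v := by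
    rintro ⟨i, a⟩
    have := hr i.val
    rw [ZMod.natCast_zmod_val] at this
    exact this.trans (h0 i a)
  have : Nonempty (ZMod k × Fin 8) := ⟨(0, 0)⟩
  exact ⟨fun u v => (hall u).symm.trans (hall v)⟩

theorem memvals (x : ℤ) (h : x = -1 ∨ x = 1 ∨ x = 2 ∨ x = 3) : (x + 1).toNat ∈ vals := by
  rcases h with rfl | rfl | rfl | rfl <;> decide

theorem lower (k : ℕ) (hk : 3 ≤ k) [NeZero k] (f : ZMod k × Fin 8 → ℤ) (hf : IsSDRDF (GR k) f) :
    16 * (k : ℤ) ≤ 3 * ∑ v, f v := by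
  set g : ZMod k × Fin 8 → ℕ := fun v => (f v + 1).toNat with hg
  have hmem : ∀ v, g v ∈ vals := fun v => memvals _ (hf.1 v)
  have hgf : ∀ v, (g v : ℤ) = f v + 1 := by
    intro v
    have : 0 ≤ f v + 1 := by
      rcases hf.1 v with h | h | h | h <;> omega
    simp [hg, Int.toNat_of_nonneg this]
  have hloc : ∀ (i : ZMod k) (a : Fin 8), a ≠ 0 →
      ok (g (i, a)) (g (i, (nb a).1)) (g (i, (nb a).2.1)) (g (i, (nb a).2.2)) = true := by
    intro i a ha
    obtain ⟨h1, h2, h3⟩ := nb_ne a ha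
    exact locV (GR k) f hf (i, a) _ _ _ (nbset_pos k i a ha)
      (by simpa using h1) (by simpa using h2) (by simpa using h3)
  have hloc0 : ∀ i : ZMod k, ok (g (i, 0)) (g (i - 1, 0)) (g (i + 1, 0)) (g (i, 2)) = true := by
    intro i
    have h2 := two_ne k hk
    refine locV (GR k) f hf (i, 0) _ _ _ (nbset_zero k hk i) ?_ ?_ ?_
    · intro h
      apply h2
      have := (Prod.mk.injEq _ _ _ _ ▸ h).1
      linear_combination -this
    · intro h
      exact absurd (show (0 : Fin 8) = 2 from congrArg Prod.snd h) (by decide)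
    · intro h
      exact absurd (show (0 : Fin 8) = 2 from congrArg Prod.snd h) (by decide)
  have hunit : ∀ i : ZMod k, 40 + phi (g (i, 0)) (g (i + 1, 0)) ≤
      3 * (∑ a : Fin 8, g (i, a)) + phi (g (i - 1, 0)) (g (i, 0)) := by
    intro i
    have hB := block (g (i,0)) (hmem _) (g (i,2)) (hmem _) (g (i,4)) (hmem _) (g (i,7)) (hmem _)
      (hloc i 2 (by decide)) (g (i,3)) (hmem _) (g (i,6)) (hmem _) (hloc i 4 (by decide))
      (g (i,1)) (hmem _) (g (i,5)) (hmem _) (hloc i 7 (by decide)) (hloc i 3 (by decide))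
      (hloc i 6 (by decide)) (hloc i 1 (by decide)) (hloc i 5 (by decide))
    have hR := ringc (g (i-1,0)) (hmem _) (g (i,0)) (hmem _) (g (i+1,0)) (hmem _) (g (i,2)) (hmem _)
      (hloc0 i)
    have hs : ∑ a : Fin 8, g (i, a) = g (i,0) + g (i,1) + g (i,2) + g (i,3) + g (i,4) + g (i,5) +
        g (i,6) + g (i,7) := by
      simp [Fin.sum_univ_succ]
      ring
    rw [hs]
    omega
  have hsum := Finset.sum_le_sum (fun i (_ : i ∈ (Finset.univ : Finset (ZMod k))) => hunit i)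
  rw [Finset.sum_add_distrib, Finset.sum_add_distrib, ← Finset.mul_sum] at hsum
  have hre : ∑ i : ZMod k, phi (g (i - 1, 0)) (g (i, 0)) =
      ∑ i : ZMod k, phi (g (i, 0)) (g (i + 1, 0)) := by
    rw [← Equiv.sum_comp (Equiv.addRight (1 : ZMod k)) (fun i => phi (g (i - 1, 0)) (g (i, 0)))]
    apply Finset.sum_congr rfl
    intro i _
    simp
  rw [hre] at hsum
  have h40 : ∑ i : ZMod k, 40 = 40 * k := by
    simp [ZMod.card, mul_comm]
  rw [h40] at hsum
  have hfin : 40 * k ≤ 3 * ∑ i : ZMod k, ∑ a : Fin 8, g (i, a) := by omega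
  have hprod : ∑ v : ZMod k × Fin 8, g v = ∑ i : ZMod k, ∑ a : Fin 8, g (i, a) :=
    Fintype.sum_prod_type _
  rw [← hprod] at hfin
  have hz : (∑ v : ZMod k × Fin 8, (g v : ℤ)) = ∑ v, f v + 8 * k := by
    rw [Finset.sum_congr rfl (fun v _ => hgf v), Finset.sum_add_distrib]
    simp [ZMod.card, mul_comm]
  have hfin' : (40 * k : ℤ) ≤ 3 * ∑ v : ZMod k × Fin 8, (g v : ℤ) := by exact_mod_cast hfin
  rw [hz] at hfin'
  linarith

theorem result : ∀ k : ℕ, 3 ≤ k → ∃ (V : Type) (_ : Fintype V) (G : SimpleGraph V),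
    Fintype.card V = 8 * k ∧ G.Connected ∧ (∀ v, (G.neighborSet v).ncard = 3) ∧
    (∃ f : V → ℤ, IsSDRDF G f) ∧
    ∀ f : V → ℤ, IsSDRDF G f → 2 * (Fintype.card V : ℤ) ≤ 3 * ∑ v, f v := by
  intro k hk
  have : NeZero k := ⟨by omega⟩
  have hdeg : ∀ v, ((GR k).neighborSet v).ncard = 3 := by
    rintro ⟨i, a⟩
    by_cases ha : a = 0
    · subst ha
      rw [nbset_zero k hk]
      have h2 := two_ne k hk
      rw [Set.ncard_eq_three]
      refine ⟨_, _, _, ?_, ?_, ?_, rfl⟩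
      · intro h
        apply h2
        have := congrArg Prod.fst h
        simp only at this
        linear_combination -this
      · intro h
        exact absurd (show (0 : Fin 8) = 2 from congrArg Prod.snd h) (by decide)
      · intro h
        exact absurd (show (0 : Fin 8) = 2 from congrArg Prod.snd h) (by decide)
    · rw [nbset_pos k i a ha]
      obtain ⟨h1, h2, h3⟩ := nb_ne a ha
      rw [Set.ncard_eq_three]
      exact ⟨_, _, _, by simpa using h1, by simpa using h2, by simpa using h3, rfl⟩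
  refine ⟨ZMod k × Fin 8, inferInstance, GR k, ?_, conn k hk, hdeg, ?_, ?_⟩
  · simp [ZMod.card, mul_comm]
  · refine ⟨fun _ => 2, fun _ => Or.inr (Or.inr (Or.inl rfl)), ?_, ?_, ?_⟩
    · intro u h; norm_num at h
    · intro u h; norm_num at h
    · intro u
      have : (0 : ℤ) ≤ ∑ᶠ v ∈ (GR k).neighborSet u, (2 : ℤ) :=
        finsum_nonneg (fun v => finsum_nonneg (fun _ => by norm_num))
      linarith
  · intro f hf
    have := lower k hk f hf
    have hc : (Fintype.card (ZMod k × Fin 8) : ℤ) = 8 * k := by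
      simp [ZMod.card, mul_comm]
    rw [hc]
    linarith

end Pool.Agent.Results.MP_eb164e_co.TwoThirds
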